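import Pool.Agent.W845.GL.Stm

/-! GL-R2: second moments, disjoint images. -/

set_option autoImplicit false

namespace Pool.Agent.W881.GL.R2

open Filter MeasureTheory Finset
open scoped Classical Topology
open Pool.Agent.W845.GL

/-- the ordered pair -/
noncomputable def od {n : ℕ} (u v : Fin n) : Fin n × Fin n := if u < v then (u, v) else (v, u)

theorem adj_iff {n : ℕ} (e : Fin n × Fin n → Bool) (u v : Fin n) (h : u ≠ v) :
    (GE e).Adj u v ↔ e (od u v) = true := by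
  unfold od GE
  simp only
  rcases lt_trichotomy u v with h1 | h1 | h1
  · rw [if_pos h1]
    constructor
    · rintro (h2 | h2)
      · exact h2.2
      · exact absurd h2.1 (lt_asymm h1)
    · intro h2
      exact Or.inl ⟨h1, h2⟩
  · exact absurd h1 h
  · rw [if_neg (lt_asymm h1)]
    constructor
    · rintro (h2 | h2)
      · exact absurd h2.1 (lt_asymm h1)
      · exact h2.2
    · intro h2
      exact Or.inr ⟨h1, h2⟩

theorem W_od {X : Type} (W : X → X → ℝ) (hW : ∀ x y, W x y = W y x) {n : ℕ} (x : Fin n → X)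
    (u v : Fin n) : W (x (od u v).1) (x (od u v).2) = W (x u) (x v) := by
  unfold od
  split_ifs
  · rfl
  · exact hW _ _

/-- the pairs -/
noncomputable def Q {k n : ℕ} (φ ψ : Fin k → Fin n) : (Fin k × Fin k) ⊕ (Fin k × Fin k) → Fin n × Fin n :=
  Sum.elim (fun a => od (φ a.1) (φ a.2)) (fun a => od (ψ a.1) (ψ a.2))

theorem od_cases {n : ℕ} (u v u' v' : Fin n) (h : od u v = od u' v') :
    (u = u' ∧ v = v') ∨ (u = v' ∧ v = u') := by
  unfold od at h
  split_ifs at h <;> rw [Prod.mk.injEq] at h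
  · exact Or.inl h
  · exact Or.inr ⟨h.1, h.2⟩
  · exact Or.inr ⟨h.2, h.1⟩
  · exact Or.inl ⟨h.2, h.1⟩

theorem inj_one {k n : ℕ} (φ : Fin k → Fin n) (hφ : Function.Injective φ) (a b : Fin k × Fin k)
    (ha : a.1 < a.2) (hb : b.1 < b.2) (h : od (φ a.1) (φ a.2) = od (φ b.1) (φ b.2)) : a = b := by
  rcases od_cases _ _ _ _ h with ⟨h1, h2⟩ | ⟨h1, h2⟩
  · exact Prod.ext (hφ h1) (hφ h2)
  · have e1 := hφ h1
    have e2 := hφ h2
    rw [e1, e2] at ha
    exact absurd hb (lt_asymm ha)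

theorem Q_inj {k n : ℕ} (F : SimpleGraph (Fin k)) (φ ψ : Fin k → Fin n)
    (hφ : Function.Injective φ) (hψ : Function.Injective ψ) (hd : ∀ u v, φ u ≠ ψ v) :
    Set.InjOn (Q φ ψ) ((Eg F).disjSum (Eg F) : Finset ((Fin k × Fin k) ⊕ (Fin k × Fin k))) := by
  have hEg : ∀ a ∈ Eg F, a.1 < a.2 := by
    intro a ha
    unfold Eg at ha
    exact (Finset.mem_filter.1 ha).2.1
  rintro (a | a) ha (b | b) hb h
  · rw [Finset.mem_coe, Finset.inl_mem_disjSum] at ha hb
    rw [inj_one φ hφ a b (hEg a ha) (hEg b hb) h]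
  · exfalso
    rcases od_cases _ _ _ _ h with ⟨h1, _⟩ | ⟨h1, _⟩
    · exact hd _ _ h1
    · exact hd _ _ h1
  · exfalso
    rcases od_cases _ _ _ _ h with ⟨h1, _⟩ | ⟨h1, h2⟩
    · exact hd _ _ h1.symm
    · exact hd _ _ h1.symm
  · rw [Finset.mem_coe, Finset.inr_mem_disjSum] at ha hb
    rw [inj_one ψ hψ a b (hEg a ha) (hEg b hb) h]

theorem ind_eq {k n : ℕ} (F : SimpleGraph (Fin k)) (φ : Fin k → Fin n)
    (hφ : Function.Injective φ) (e : Fin n × Fin n → Bool) :
    ind F φ e = ∏ a ∈ Eg F, (if e (od (φ a.1) (φ a.2)) = true then (1 : ℝ) else 0) := by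
  unfold ind
  refine Finset.prod_congr rfl (fun a ha => ?_)
  have h1 : a.1 < a.2 := by
    unfold Eg at ha
    exact (Finset.mem_filter.1 ha).2.1
  have h2 : φ a.1 ≠ φ a.2 := fun h => (ne_of_lt h1) (hφ h)
  have h3 := adj_iff e (φ a.1) (φ a.2) h2
  by_cases h4 : e (od (φ a.1) (φ a.2)) = true
  · rw [if_pos (h3.2 h4), if_pos h4]
  · rw [if_neg (fun h => h4 (h3.1 h)), if_neg h4]

theorem ind_mul {k n : ℕ} (F : SimpleGraph (Fin k)) (φ ψ : Fin k → Fin n)
    (hφ : Function.Injective φ) (hψ : Function.Injective ψ) (hd : ∀ u v, φ u ≠ ψ v)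
    (e : Fin n × Fin n → Bool) :
    ind F φ e * ind F ψ e = ∏ q ∈ ((Eg F).disjSum (Eg F)).image (Q φ ψ),
      (if e q = true then (1 : ℝ) else 0) := by
  rw [Finset.prod_image (Q_inj F φ ψ hφ hψ hd), Finset.prod_disjSum, ind_eq F φ hφ, ind_eq F ψ hψ]
  rfl

/-- marginals -/
theorem marg {X : Type} [Fintype X] {n : ℕ} {ι C : Type} [Fintype ι] [Fintype C] [DecidableEq ι]
    (e : ι ⊕ C ≃ Fin n) (χ : ι → Fin n) (he : ∀ i, e (Sum.inl i) = χ i) (g : (ι → X) → ℝ) :
    ∑ x : Fin n → X, g (fun i => x (χ i)) = (Fintype.card X : ℝ) ^ (Fintype.card C) *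
      ∑ y : ι → X, g y := by
  let E : (Fin n → X) ≃ (ι → X) × (C → X) :=
    (Equiv.arrowCongr e.symm (Equiv.refl X)).trans (Equiv.sumArrowEquivProdArrow ι C X)
  have h1 : ∑ x : Fin n → X, g (fun i => x (χ i)) = ∑ z : (ι → X) × (C → X), g z.1 := by
    refine Fintype.sum_equiv E _ _ (fun x => ?_)
    have : (E x).1 = fun i => x (χ i) := by
      funext i
      show x (e (Sum.inl i)) = x (χ i)
      rw [he]
    rw [this]
  rw [h1, Fintype.sum_prod_type]
  simp only [Finset.sum_const, Finset.card_univ, Fintype.card_fun, nsmul_eq_mul]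
  rw [← Finset.mul_sum, Nat.cast_pow]

theorem marg' {X : Type} [Fintype X] [Nonempty X] {n : ℕ} {ι : Type} [Fintype ι] [DecidableEq ι]
    (χ : ι → Fin n) (hχ : Function.Injective χ) (g : (ι → X) → ℝ) :
    (∑ x : Fin n → X, g (fun i => x (χ i))) / (Fintype.card X : ℝ) ^ n =
      (∑ y : ι → X, g y) / (Fintype.card X : ℝ) ^ (Fintype.card ι) := by
  let C : Type := {j : Fin n // j ∉ Set.range χ}
  let e : ι ⊕ C ≃ Fin n := ((Equiv.ofInjective χ hχ).sumCongr (Equiv.refl C)).trans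
    (Equiv.Set.sumCompl (Set.range χ))
  have he : ∀ i, e (Sum.inl i) = χ i := by
    intro i
    show (Equiv.Set.sumCompl (Set.range χ)) (Sum.inl (Equiv.ofInjective χ hχ i)) = χ i
    rw [Equiv.Set.sumCompl_apply_inl, Equiv.ofInjective_apply]
  have hcard : Fintype.card ι + Fintype.card C = n := by
    rw [← Fintype.card_sum, Fintype.card_congr e, Fintype.card_fin]
  rw [marg e χ he g]
  have hX : (Fintype.card X : ℝ) ≠ 0 := by
    exact_mod_cast Fintype.card_ne_zero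
  rw [div_eq_div_iff (pow_ne_zero _ hX) (pow_ne_zero _ hX)]
  have e5 : (Fintype.card X : ℝ) ^ n = (Fintype.card X : ℝ) ^ (Fintype.card ι) *
      (Fintype.card X : ℝ) ^ (Fintype.card C) := by
    rw [← pow_add]
    exact congrArg (fun m : ℕ => (Fintype.card X : ℝ) ^ m) hcard.symm
  rw [e5]
  ring

theorem sum_two {X : Type} [Fintype X] {k : ℕ} (h : (Fin k → X) → ℝ) :
    ∑ y : Fin k ⊕ Fin k → X, h (fun i => y (Sum.inl i)) * h (fun i => y (Sum.inr i)) =
      (∑ y : Fin k → X, h y) ^ 2 := by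
  have h1 : ∑ y : Fin k ⊕ Fin k → X, h (fun i => y (Sum.inl i)) * h (fun i => y (Sum.inr i)) =
      ∑ z : (Fin k → X) × (Fin k → X), h z.1 * h z.2 :=
    Fintype.sum_equiv (Equiv.sumArrowEquivProdArrow (Fin k) (Fin k) X) _ _ (fun y => rfl)
  rw [h1, Fintype.sum_prod_type, sq, Finset.sum_mul_sum]

theorem r2 : S_R0 → S_R2 := by
  intro h0 X _ _ W hW n k F φ ψ hφ hψ hd
  set A := ((Eg F).disjSum (Eg F)).image (Q φ ψ) with hA
  set h : (Fin k → X) → ℝ := fun y => ∏ a ∈ Eg F, W (y a.1) (y a.2) with hh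
  have e1 : ∀ x : Fin n → X, ∑ e : Fin n × Fin n → Bool, wt W x e * (ind F φ e * ind F ψ e) =
      h (fun i => x (φ i)) * h (fun i => x (ψ i)) := by
    intro x
    have e2 : ∑ e : Fin n × Fin n → Bool, wt W x e * (ind F φ e * ind F ψ e) =
        ∑ e : Fin n × Fin n → Bool, wt W x e * ∏ q ∈ A, (if e q = true then (1 : ℝ) else 0) :=
      Finset.sum_congr rfl (fun e _ => by rw [ind_mul F φ ψ hφ hψ hd e])
    rw [e2, h0 X W n x A, hA, Finset.prod_image (Q_inj F φ ψ hφ hψ hd), Finset.prod_disjSum]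
    congr 1
    · refine Finset.prod_congr rfl (fun a _ => ?_)
      exact W_od W hW x (φ a.1) (φ a.2)
    · refine Finset.prod_congr rfl (fun a _ => ?_)
      exact W_od W hW x (ψ a.1) (ψ a.2)
  unfold EX
  simp only [e1]
  have hχ : Function.Injective (Sum.elim φ ψ) := by
    rintro (a | a) (b | b) hab
    · rw [hφ hab]
    · exact absurd hab (hd _ _)
    · exact absurd hab.symm (hd _ _)
    · rw [hψ hab]
  have e3 := marg' (X := X) (Sum.elim φ ψ) hχ
    (fun y => h (fun i => y (Sum.inl i)) * h (fun i => y (Sum.inr i)))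
  have e4 : (∑ x : Fin n → X, h (fun i => x (φ i)) * h (fun i => x (ψ i))) /
      (Fintype.card X : ℝ) ^ n = _ := e3
  rw [e4, sum_two, Fintype.card_sum, Fintype.card_fin]
  unfold tW
  rw [div_pow, ← pow_mul]
  congr 2
  ring

end Pool.Agent.W881.GL.R2
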